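import Pool.Agent.BorelPcf.Main

/-!
The iterated ideals.
-/

set_option autoImplicit false

universe u

open Cardinal Ordinal Set Pool.Agent.Helper6.Pcf Pool.Agent.PcfInc

namespace Pool.Agent.BorelPcf

/-- `Iter mu s th K`: the ideal `K` on the index set of the sequence `s`, and the cardinal `th`,
are obtained by iterating the ideal of bounded sets. Either `th` is the true cofinality of the
product of `s` over an unbounded set `C` of indices modulo bounded sets, and `K` consists of the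
sets whose intersection with `C` is bounded; or `th` is the true cofinality modulo bounded sets of
a strictly increasing sequence `t` with a supremum `chi` strictly between `mu` and `th`, every
`t n` is obtained with an ideal `K n`, and `K` consists of the sets which belong to `K n` for all
but boundedly many `n`. -/
inductive Iter (mu : Cardinal.{u}) (s : (Cardinal.aleph0.{u}).ord.ToType → Cardinal.{u}) :
    Cardinal.{u} → Set (Set (Cardinal.aleph0.{u}).ord.ToType) → Prop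
  | base (th : Cardinal.{u}) (C : Set (Cardinal.aleph0.{u}).ord.ToType) (hmu : mu < th)
      (hC : C ∉ Jbd (Cardinal.aleph0.{u}).ord.ToType)
      (ht : TCF s {X | X ∩ C ∈ Jbd (Cardinal.aleph0.{u}).ord.ToType} th) :
      Iter mu s th {X | X ∩ C ∈ Jbd (Cardinal.aleph0.{u}).ord.ToType}
  | step (th chi : Cardinal.{u}) (t : (Cardinal.aleph0.{u}).ord.ToType → Cardinal.{u})
      (K : (Cardinal.aleph0.{u}).ord.ToType → Set (Set (Cardinal.aleph0.{u}).ord.ToType))
      (hmu : mu < chi) (hth : chi < th) (hmono : StrictMono t) (hsup : IsLUB (Set.range t) chi)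
      (ht : TCF t (Jbd (Cardinal.aleph0.{u}).ord.ToType) th) (hK : ∀ n, Iter mu s (t n) (K n)) :
      Iter mu s th {X | {n | X ∉ K n} ∈ Jbd (Cardinal.aleph0.{u}).ord.ToType}

section

variable {mu th : Cardinal.{u}} {s : W.{u} → Cardinal.{u}}

/-- the first alternative -/
theorem good_of_inc (hs : StrictMono s) (hreg : ∀ i, (s i).IsRegular)
    (hsk : ∀ i, Cardinal.aleph0.{u} < s i) (hlub : IsLUB (Set.range s) mu)
    (s' : W.{u} → Cardinal.{u}) (hs' : StrictMono s') (hmem : ∀ i, s' i ∈ Set.range s)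
    (hlub' : IsLUB (Set.range s') mu) (hT : TCF s' (Jbd W.{u}) th) :
    ∃ C : Set W.{u}, C ∉ Jbd W.{u} ∧ TCF s {X | X ∩ C ∈ Jbd W.{u}} th := by
  have hk := Cardinal.isRegular_aleph0.{u}
  choose e he using hmem
  have hemono : StrictMono e := by
    intro i j hij
    apply hs.lt_iff_lt.1
    rw [he, he]
    exact hs' hij
  have hthreg : th.IsRegular := hT.1
  have hpt : IsKIdeal (Cardinal.aleph0.{u}) {Y : Set PUnit.{u + 1} | PUnit.unit ∉ Y} :=
    point_ideal hk _
  have hTp : TCF (fun _ : PUnit.{u + 1} => th) {Y : Set PUnit.{u + 1} | PUnit.unit ∉ Y} th :=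
    TCF_point (fun _ => th) (fun _ => hthreg) PUnit.unit
  have hMp : (Set.univ : Set PUnit.{u + 1})ᶜ ∈ {Y : Set PUnit.{u + 1} | PUnit.unit ∉ Y} := by
    rw [Set.compl_univ]; exact Set.notMem_empty _
  have hunit : #(PUnit.{u + 1}) ≤ Cardinal.aleph0.{u} := by
    rw [Cardinal.mk_punit]
    exact Cardinal.one_le_aleph0
  have hen : {y | ¬ (s (e y) = s' y ∧ Cardinal.aleph0.{u} < s' y)} ∈ Jbd W.{u} := by
    have h1 : {y | ¬ (s (e y) = s' y ∧ Cardinal.aleph0.{u} < s' y)} = (∅ : Set W.{u}) := by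
      ext y
      simp only [Set.mem_ofPred_eq, Set.mem_empty_iff_false, iff_false, not_not]
      refine ⟨he y, ?_⟩
      rw [← he y]
      exact hsk _
    rw [h1]
    exact (Jbd_ideal hk).isKI.empty le_rfl
  refine ⟨Set.range e, ?_, ?_⟩
  · rintro ⟨b, hb⟩
    obtain ⟨i, hi⟩ := lub_ex hlub' (lub_lt hk hs hlub b)
    have h1 : e i ≤ b := hb _ ⟨i, rfl⟩
    have h2 := hs.monotone h1
    rw [he] at h2
    exact absurd hi (not_lt.2 h2)
  · refine TCF_mono ?_ (CompI_tcf hk hunit (fun _ => (mk_ord_toType _).le) s hreg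
      (fun _ => th) (fun _ => hthreg) Set.univ _ hMp hpt hTp (fun _ => s')
      (fun _ => Jbd W.{u}) (fun _ _ => Jbd_ideal hk) (fun _ _ => hT) (fun _ => e)
      (fun _ _ => hen))
    intro X hX
    rw [mem_CompI] at hX
    have h1 : {i | e i ∈ X} ∈ Jbd W.{u} := by
      by_contra h2
      exact hX ⟨Set.mem_univ _, h2⟩
    obtain ⟨b, hb⟩ := h1
    refine ⟨e b, ?_⟩
    rintro _ ⟨hx, i, rfl⟩
    exact hemono.monotone (hb i hx)

theorem iter_of_spec (hcof : mu.ord.cof = Cardinal.aleph0.{u})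
    (hbig : (2 : Cardinal.{u}) ^ Cardinal.aleph0.{u} < mu) (hs : StrictMono s)
    (hreg : ∀ i, (s i).IsRegular)
    (hsbig : ∀ i, (2 : Cardinal.{u}) ^ Cardinal.aleph0.{u} < s i)
    (hlub : IsLUB (Set.range s) mu) :
    ∀ th : Cardinal.{u}, th ∈ Spec (Cardinal.aleph0.{u}) mu s → ∃ K, Iter mu s th K := by
  have hk := Cardinal.isRegular_aleph0.{u}
  intro th
  induction th using WellFoundedLT.induction with
  | ind th ih =>
    intro hth
    have hgt := spec_gt hk hcof hbig s hs hreg hsbig hlub hth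
    obtain ⟨J, hJ⟩ := hth
    rcases theoremA rfl hk hcof hbig s J hJ with ⟨s', h1, h2, h3, h4⟩ |
      ⟨chi, t, h1, h2, h3, h4, h5, h6⟩
    · obtain ⟨C, hC, hT⟩ := good_of_inc hs hreg
        (fun i => (Cardinal.cantor _).trans (hsbig i)) hlub s' h1 h2 h3 h4
      exact ⟨_, Iter.base th C hgt hC hT⟩
    · have hlt : ∀ n, t n < th := fun n => lt_of_le_of_lt (h5.1 ⟨n, rfl⟩) h2
      choose K hK using fun n => ih _ (hlt n) (h4 n).2
      exact ⟨_, Iter.step th chi t K h1 h2 h3 h5 h6 hK⟩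

theorem iter_tree (hmu : Cardinal.aleph0.{u} < mu) {K : Set (Set W.{u})}
    (h : Iter mu s th K) :
    ∃ (T : Type u) (C : T → Set W.{u}) (vt : T → Cardinal.{u}) (E : Set (Set T)),
      Tree mu s th T C vt E ∧ K = treeI C E := by
  have hk := Cardinal.isRegular_aleph0.{u}
  induction h with
  | base th C hgt hC hT =>
    have hpt : IsKIdeal (Cardinal.aleph0.{u}) {Y : Set PUnit.{u + 1} | PUnit.unit ∉ Y} :=
      point_ideal hk _
    have hTp : TCF (fun _ : PUnit.{u + 1} => th) {Y : Set PUnit.{u + 1} | PUnit.unit ∉ Y} th :=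
      TCF_point (fun _ => th) (fun _ => hT.1) PUnit.unit
    refine ⟨PUnit.{u + 1}, fun _ => C, fun _ => th, {Y | PUnit.unit ∉ Y},
      ⟨inferInstance, hpt, (measurableSet_setOf.2 (measurable_set_mem _)).compl, hTp,
        fun _ => hgt, fun _ => le_rfl, fun _ => hC, fun _ => hT⟩, ?_⟩
    ext X
    show X ∩ C ∈ Jbd W.{u} ↔
      PUnit.unit ∉ {t : PUnit.{u + 1} | X ∩ C ∉ Jbd W.{u}}
    simp
  | step th chi t K h1 h2 h3 h4 h5 h6 ih =>
    choose T C vt E hE hKE using ih
    have hcount : ∀ n, Countable (T n) := fun n => (hE n).countable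
    have hM : (Set.univ : Set W.{u})ᶜ ∈ Jbd W.{u} := by
      rw [Set.compl_univ]
      exact (Jbd_ideal hk).isKI.empty le_rfl
    have hlt : ∀ n, t n < th := fun n => lt_of_le_of_lt (h4.1 ⟨n, rfl⟩) h2
    refine ⟨Σ n, T n, fun p => C p.1 p.2, fun p => vt p.1 p.2,
      CompI Set.univ (Jbd W.{u}) E (fun n t => ⟨n, t⟩), ⟨inferInstance,
        CompI_ideal hk hM (Jbd_ideal hk) (fun n _ => (hE n).ideal),
        measurable_comp E (fun n => (hE n).borel) _ _ measurable_Jbd,
        CompI_tcf hk (mk_ord_toType _).le (fun n => Cardinal.mk_le_aleph0_iff.2 (hcount n))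
          (fun p : Σ n, T n => vt p.1 p.2)
          (fun p => ((hE p.1).good p.2).1) t (fun n => (hE n).tcf.1) Set.univ _ hM
          (Jbd_ideal hk) h5 vt E (fun n _ => (hE n).ideal) (fun n _ => (hE n).tcf) _ ?_,
        fun p => (hE p.1).gt p.2, fun p => ((hE p.1).le p.2).trans (hlt p.1).le,
        fun p => (hE p.1).unb p.2, fun p => (hE p.1).good p.2⟩, ?_⟩
    · intro n _
      have h1 : {i | ¬ (vt n i = vt n i ∧ Cardinal.aleph0.{u} < vt n i)} = (∅ : Set (T n)) := by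
        ext i
        simp only [Set.mem_ofPred_eq, Set.mem_empty_iff_false, iff_false, not_not]
        exact ⟨trivial, hmu.trans ((hE n).gt i)⟩
      show {i | ¬ (vt n i = vt n i ∧ Cardinal.aleph0.{u} < vt n i)} ∈ E n
      rw [h1]
      exact (hE n).ideal.isKI.empty le_rfl
    · ext X
      have h7 : {n | X ∉ K n} = {n | n ∈ (Set.univ : Set W.{u}) ∧
          {i | (⟨n, i⟩ : Σ n, T n) ∈ {p : Σ n, T n | X ∩ C p.1 p.2 ∉ Jbd W.{u}}} ∉ E n} := by
        ext n
        show X ∉ K n ↔ n ∈ (Set.univ : Set W.{u}) ∧ {i | X ∩ C n i ∉ Jbd W.{u}} ∉ E n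
        rw [hKE n, and_iff_right (Set.mem_univ n)]
        exact Iff.rfl
      show {n | X ∉ K n} ∈ Jbd W.{u} ↔
        {p : Σ n, T n | X ∩ C p.1 p.2 ∉ Jbd W.{u}} ∈ CompI Set.univ (Jbd W.{u}) E _
      rw [mem_CompI, h7]

end

/-- the theorem -/
theorem borel_ideal (mu lam : Cardinal.{u}) (hcof : mu.ord.cof = Cardinal.aleph0.{u})
    (hmu : (2 : Cardinal.{u}) ^ Cardinal.aleph0.{u} < mu)
    (I : Type u) (L : I → Cardinal.{u}) (J : Set (Set I))
    (hrep : IsRep Cardinal.aleph0.{u} mu lam L J) :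
    ∃ s : (Cardinal.aleph0.{u}).ord.ToType → Cardinal.{u},
      StrictMono s ∧ (∀ i, s i ∈ Set.range L) ∧ IsLUB (Set.range s) mu ∧
      (∃ K' : Set (Set (Cardinal.aleph0.{u}).ord.ToType), IsKIdeal Cardinal.aleph0.{u} K' ∧
        Jbd (Cardinal.aleph0.{u}).ord.ToType ⊆ K' ∧ TCF s K' lam) ∧
      ∀ th : Cardinal.{u},
        (∃ K' : Set (Set (Cardinal.aleph0.{u}).ord.ToType), IsKIdeal Cardinal.aleph0.{u} K' ∧
          Jbd (Cardinal.aleph0.{u}).ord.ToType ⊆ K' ∧ TCF s K' th) →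
        ∃ K : Set (Set (Cardinal.aleph0.{u}).ord.ToType),
          IsKIdeal Cardinal.aleph0.{u} K ∧ Jbd (Cardinal.aleph0.{u}).ord.ToType ⊆ K ∧
          TCF s K th ∧ MeasurableSet K ∧ Iter mu s th K ∧
          ∀ Y : Set (Cardinal.aleph0.{u}).ord.ToType, Y ∉ K →
            ∀ h : ℕ → ℕ, Filter.Tendsto h Filter.atTop Filter.atTop →
              ∃ B : ℕ → Finset (Cardinal.aleph0.{u}).ord.ToType,
                (∀ k, (B k).card ≤ h k ∧
                  (B k : Set (Cardinal.aleph0.{u}).ord.ToType) ⊆ Y) ∧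
                (∀ j k, j < k → ∀ x ∈ B j, ∀ y ∈ B k, x < y) ∧
                ∀ D : Set ℕ, D.Infinite →
                  (⋃ k ∈ D, (B k : Set (Cardinal.aleph0.{u}).ord.ToType)) ∉ K := by
  have hk := Cardinal.isRegular_aleph0.{u}
  have hmu' : Cardinal.aleph0.{u} < mu := (Cardinal.cantor _).trans hmu
  obtain ⟨s, J', h1, h2, h3, h4, h5, h6⟩ := exists_inc hk hcof hmu L J hrep
  have hreg : ∀ i, (s i).IsRegular := by
    intro i
    obtain ⟨⟨x, hx⟩, _⟩ := h2 i
    rw [← hx]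
    exact hrep.reg x
  refine ⟨s, h1, fun i => ?_, h3, ⟨J', h4, h5, h6⟩, ?_⟩
  · obtain ⟨⟨x, hx⟩, _⟩ := h2 i
    exact ⟨x, hx⟩
  · rintro th ⟨K', k1, k2, k3⟩
    have hsp : th ∈ Spec (Cardinal.aleph0.{u}) mu s :=
      ⟨K', rep_self hk s h1 hreg h3 K' k1 k2 k3⟩
    obtain ⟨K, hK⟩ := iter_of_spec hcof hmu h1 hreg (fun i => (h2 i).2) h3 th hsp
    obtain ⟨T, C, vt, E, hT, hKE⟩ := iter_tree hmu' hK
    obtain ⟨a1, a2, a3, a4⟩ := tree_main hmu' hreg
      (fun i => (Cardinal.cantor _).trans (h2 i).2) hT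
    rw [← hKE] at a1 a2 a3 a4
    refine ⟨K, a1, a2, a4, a3, hK, fun Y hY h hh => ?_⟩
    rw [hKE] at hY
    obtain ⟨B, b1, b2, b3⟩ := blocks hT.countable C E hT.ideal Y hY h hh
    rw [← hKE] at b3
    exact ⟨B, b1, b2, b3⟩

end Pool.Agent.BorelPcf
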