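import Pool.Agent.BorelPcf.Tree

/-!
The theorem on Borel ideals.
-/

set_option autoImplicit false

universe u

open Cardinal Ordinal Set Pool.Agent.Helper6.Pcf Pool.Agent.PcfInc

namespace Pool.Agent.BorelPcf

section

variable {mu th : Cardinal.{u}} {s : W.{u} → Cardinal.{u}}

theorem measurable_Jbd : MeasurableSet (Jbd W.{u}) := by
  have h := measurable_bdd (Set.univ : Set W.{u})
  have h1 : {X : Set W.{u} | X ∩ Set.univ ∈ Jbd W.{u}} = Jbd W.{u} := by
    ext X
    simp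
  rwa [h1] at h

/-- the ideal of a tree -/
def treeI {T : Type u} (C : T → Set W.{u}) (E : Set (Set T)) : Set (Set W.{u}) :=
  {X | {t | X ∩ C t ∉ Jbd W.{u}} ∈ E}

theorem treeI_eq {T : Type u} (C : T → Set W.{u}) (E : Set (Set T)) :
    treeI C E = CompI Set.univ E (fun t => {X | X ∩ C t ∈ Jbd W.{u}})
      (fun _ => (id : W.{u} → W.{u})) := by
  ext X
  rw [mem_CompI]
  show {t | X ∩ C t ∉ Jbd W.{u}} ∈ E ↔ _
  have h1 : {t | X ∩ C t ∉ Jbd W.{u}} = {t | t ∈ (Set.univ : Set T) ∧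
      {i | (id : W.{u} → W.{u}) i ∈ X} ∉ {X : Set W.{u} | X ∩ C t ∈ Jbd W.{u}}} := by
    ext t
    simp
  rw [h1]

theorem trace_ideal {C : Set W.{u}} (hC : C ∉ Jbd W.{u}) :
    IsKIdeal (Cardinal.aleph0.{u}) {X : Set W.{u} | X ∩ C ∈ Jbd W.{u}} := by
  have hk := Cardinal.isRegular_aleph0.{u}
  have h1 := Tr_isKI (Jbd_ideal hk).isKI C
  refine ⟨?_, h1.down, h1.sUnion⟩
  intro h
  have h2 : Set.univ ∩ C ∈ Jbd W.{u} := h
  rw [Set.univ_inter] at h2
  exact hC h2

theorem tree_main (hmu : Cardinal.aleph0.{u} < mu) (hreg : ∀ i, (s i).IsRegular)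
    (hsk : ∀ i, Cardinal.aleph0.{u} < s i) {T : Type u} {C : T → Set W.{u}}
    {vt : T → Cardinal.{u}} {E : Set (Set T)} (h : Tree mu s th T C vt E) :
    IsKIdeal (Cardinal.aleph0.{u}) (treeI C E) ∧ Jbd W.{u} ⊆ treeI C E ∧
      MeasurableSet (treeI C E) ∧ TCF s (treeI C E) th := by
  have hk := Cardinal.isRegular_aleph0.{u}
  have hcount := h.countable
  have hM : (Set.univ : Set T)ᶜ ∈ E := by
    rw [Set.compl_univ]
    exact h.ideal.isKI.empty le_rfl
  refine ⟨?_, ?_, ?_, ?_⟩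
  · rw [treeI_eq]
    exact CompI_ideal hk hM h.ideal (fun t _ => trace_ideal (h.unb t))
  · intro X hX
    show {t | X ∩ C t ∉ Jbd W.{u}} ∈ E
    have h1 : {t | X ∩ C t ∉ Jbd W.{u}} = (∅ : Set T) := by
      ext t
      simp only [Set.mem_ofPred_eq, Set.mem_empty_iff_false, iff_false, not_not]
      exact (Jbd_ideal hk).down _ _ Set.inter_subset_left hX
    rw [h1]
    exact h.ideal.isKI.empty le_rfl
  · rw [treeI_eq]
    exact measurable_comp _ (fun t => measurable_bdd (C t)) _ _ h.borel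
  · rw [treeI_eq]
    refine CompI_tcf hk (Cardinal.mk_le_aleph0_iff.2 hcount) (fun _ => (mk_ord_toType _).le) s
      hreg vt (fun t => (h.good t).1) Set.univ _ hM h.ideal h.tcf (fun _ => s) _
      (fun t _ => trace_ideal (h.unb t)) (fun t _ => h.good t) _ ?_
    intro t _
    have h1 : {i | ¬ (s ((id : W.{u} → W.{u}) i) = s i ∧ Cardinal.aleph0.{u} < s i)} =
        (∅ : Set W.{u}) := by
      ext i
      simp only [Set.mem_ofPred_eq, Set.mem_empty_iff_false, iff_false, not_not]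
      exact ⟨rfl, hsk i⟩
    rw [h1]
    exact (trace_ideal (h.unb t)).isKI.empty le_rfl

/-- finite blocks of slowly growing size inside a positive set, every infinite union of which is
positive -/
theorem blocks {T : Type u} (hcount : Countable T) (C : T → Set W.{u}) (E : Set (Set T))
    (hE : IsKIdeal (Cardinal.aleph0.{u}) E) (Y : Set W.{u}) (hY : Y ∉ treeI C E) (h : ℕ → ℕ)
    (hh : Filter.Tendsto h Filter.atTop Filter.atTop) :
    ∃ B : ℕ → Finset W.{u}, (∀ k, (B k).card ≤ h k ∧ (B k : Set W.{u}) ⊆ Y) ∧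
      (∀ j k, j < k → ∀ x ∈ B j, ∀ y ∈ B k, x < y) ∧
      ∀ D : Set ℕ, D.Infinite → (⋃ k ∈ D, (B k : Set W.{u})) ∉ treeI C E := by
  classical
  have hk := Cardinal.isRegular_aleph0.{u}
  have hYE : {t | Y ∩ C t ∉ Jbd W.{u}} ∉ E := hY
  have hne : Nonempty {t | Y ∩ C t ∉ Jbd W.{u}} := by
    by_contra hcon
    apply hYE
    have h1 : {t | Y ∩ C t ∉ Jbd W.{u}} = ∅ := by
      rw [Set.eq_empty_iff_forall_notMem]
      intro t ht
      exact hcon ⟨⟨t, ht⟩⟩
    rw [h1]
    exact hE.isKI.empty le_rfl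
  obtain ⟨f, hf⟩ := exists_surjective_nat {t | Y ∩ C t ∉ Jbd W.{u}}
  have hpick : ∀ (t : {t | Y ∩ C t ∉ Jbd W.{u}}) (b : W.{u}), ∃ x, x ∈ Y ∩ C t ∧ b < x := by
    rintro ⟨t, ht⟩ b
    by_contra hcon
    push Not at hcon
    exact ht ⟨b, hcon⟩
  choose pick hp1 hp2 using hpick
  have hW : Nonempty W.{u} := ⟨ToType.mk ⟨0, hk.ord_pos⟩⟩
  obtain ⟨w0⟩ := hW
  let P : ℕ → W.{u} → Finset W.{u} := fun k b =>
    (Finset.range (h k)).image (fun n => pick (f n) b)
  let b : ℕ → W.{u} := fun k => Nat.rec w0 (fun k b =>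
    (insert b (P k b)).max' (Finset.insert_nonempty _ _)) k
  have hb : ∀ k, b (k + 1) = (insert (b k) (P k (b k))).max' (Finset.insert_nonempty _ _) :=
    fun k => rfl
  have hb1 : ∀ k, b k ≤ b (k + 1) := by
    intro k
    rw [hb]
    exact Finset.le_max' _ _ (Finset.mem_insert_self _ _)
  have hbm : Monotone b := monotone_nat_of_le_succ hb1
  have hb2 : ∀ k, ∀ x ∈ P k (b k), x ≤ b (k + 1) := by
    intro k x hx
    rw [hb]
    exact Finset.le_max' _ _ (Finset.mem_insert_of_mem hx)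
  have hb3 : ∀ k, ∀ x ∈ P k (b k), b k < x := by
    intro k x hx
    obtain ⟨n, -, rfl⟩ := Finset.mem_image.1 hx
    exact hp2 _ _
  refine ⟨fun k => P k (b k), fun k => ⟨?_, ?_⟩, fun j k hjk x hx y hy => ?_,
    fun D hD hcon => ?_⟩
  · exact Finset.card_image_le.trans (by rw [Finset.card_range])
  · intro x hx
    obtain ⟨n, -, rfl⟩ := Finset.mem_image.1 (Finset.mem_coe.1 hx)
    exact (hp1 _ _).1
  · exact (hb2 j x hx).trans_lt ((hbm (Nat.succ_le_of_lt hjk)).trans_lt (hb3 k y hy))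
  · apply hYE
    have hcon' : {t | (⋃ k ∈ D, (P k (b k) : Set W.{u})) ∩ C t ∉ Jbd W.{u}} ∈ E := hcon
    refine hE.down _ _ ?_ hcon'
    intro t ht
    obtain ⟨n, hn⟩ := hf ⟨t, ht⟩
    rintro ⟨c, hc⟩
    obtain ⟨N, hN⟩ := (Filter.tendsto_atTop.1 hh (n + 1)).exists_forall_of_atTop
    have hmem : ∀ k, N ≤ k → pick (f n) (b k) ∈ P k (b k) := fun k hk' =>
      Finset.mem_image.2 ⟨n, Finset.mem_range.2 (hN k hk'), rfl⟩
    have hD' : (D ∩ Set.Ici N).Infinite := by
      intro hfin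
      apply hD
      refine (hfin.union (Set.finite_Iio N)).subset ?_
      intro k hk'
      rcases le_or_gt N k with h1 | h1
      · exact Or.inl ⟨hk', h1⟩
      · exact Or.inr h1
    have hinj : Set.InjOn (fun k => pick (f n) (b k)) (D ∩ Set.Ici N) := by
      have hlt : ∀ j k, N ≤ j → j < k → pick (f n) (b j) < pick (f n) (b k) := by
        intro j k hj hjk
        exact (hb2 j _ (hmem j hj)).trans_lt ((hbm (Nat.succ_le_of_lt hjk)).trans_lt (hp2 _ _))
      intro j hj k hk' hjk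
      by_contra hne'
      rcases lt_or_gt_of_ne hne' with h1 | h1
      · exact absurd hjk (hlt j k hj.2 h1).ne
      · exact absurd hjk (hlt k j hk'.2 h1).ne'
    have hinf := hD'.image hinj
    apply hinf
    have hfin : (Set.Iic c).Finite := by
      rw [← Cardinal.lt_aleph0_iff_set_finite]
      exact pIntSelf_Iic hk c
    refine hfin.subset ?_
    rintro _ ⟨k, hk', rfl⟩
    refine hc _ ⟨?_, ?_⟩
    · exact Set.mem_iUnion₂.2 ⟨k, hk'.1, hmem k hk'.2⟩
    · have h2 := (hp1 (f n) (b k)).2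
      rw [hn] at h2 ⊢
      exact h2

end

end Pool.Agent.BorelPcf
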