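import Pool.Agent.PcfInc.ThmA

/-!
Countable case: every member of the spectrum of an increasing sequence is the true cofinality,
modulo a Borel ideal, of countably many cardinals each of which is the true cofinality modulo
bounded sets of a subsequence.
-/

set_option autoImplicit false

universe u

open Cardinal Ordinal Set Pool.Agent.Helper6.Pcf Pool.Agent.PcfInc

namespace Pool.Agent.BorelPcf

section

variable {kappa mu lam th : Cardinal.{u}}

/-- the spectrum at `mu` lies above `mu` -/
theorem spec_gt (hk : kappa.IsRegular) (hcof : mu.ord.cof = kappa)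
    (hbig : (2 : Cardinal.{u}) ^ kappa < mu) (s : kappa.ord.ToType → Cardinal.{u})
    (hs : StrictMono s) (hreg : ∀ i, (s i).IsRegular)
    (hsbig : ∀ i, (2 : Cardinal.{u}) ^ kappa < s i) (hlub : IsLUB (Set.range s) mu)
    (h : th ∈ Spec kappa mu s) : mu < th := by
  obtain ⟨J, hJ⟩ := h
  have hJbd : Jbd kappa.ord.ToType ⊆ J := by
    rintro X ⟨b, hb⟩
    exact hJ.bdd X ⟨s b, lub_lt hk hs hlub b, fun x hx => hs.monotone (hb x hx)⟩
  obtain ⟨b, -, -, h1, -, h2⟩ :=
    exists_core hk hcof hbig s hs hreg hsbig hlub J hJ.ideal hJbd hJ.tcf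
  exact (h1 th ⟨J, h2⟩).1

/-- an increasing sequence represents the true cofinalities of its product -/
theorem rep_self (hk : kappa.IsRegular) (s : kappa.ord.ToType → Cardinal.{u})
    (hs : StrictMono s) (hreg : ∀ i, (s i).IsRegular) (hlub : IsLUB (Set.range s) mu)
    (J : Set (Set kappa.ord.ToType)) (hJ : IsKIdeal kappa J)
    (hJb : Jbd kappa.ord.ToType ⊆ J) (hT : TCF s J lam) : IsRep kappa mu lam s J := by
  refine ⟨mk_ord_toType _, hs.injective, hreg, lub_lt hk hs hlub, fun c hc => lub_ex hlub hc,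
    hJ, ?_, hT⟩
  rintro X ⟨c, hc, hX⟩
  obtain ⟨i, hi⟩ := lub_ex hlub hc
  exact hJb ⟨i, fun x hx => (hs.lt_iff_lt.1 (lt_of_le_of_lt (hX x hx) hi)).le⟩

end

/-- the index type `ω` -/
abbrev W : Type u := (Cardinal.aleph0.{u}).ord.ToType

instance : Countable W.{u} := by
  rw [← Cardinal.mk_le_aleph0_iff]
  exact (mk_ord_toType _).le

/-- `th` is the true cofinality modulo a Borel ideal `E` of countably many cardinals `vt t`, each
of which is the true cofinality of the product of `s` over `C t` modulo bounded sets -/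
structure Tree (mu : Cardinal.{u}) (s : W.{u} → Cardinal.{u}) (th : Cardinal.{u}) (T : Type u)
    (C : T → Set W.{u}) (vt : T → Cardinal.{u}) (E : Set (Set T)) : Prop where
  countable : Countable T
  ideal : IsKIdeal (Cardinal.aleph0.{u}) E
  borel : MeasurableSet E
  tcf : TCF vt E th
  gt : ∀ t, mu < vt t
  le : ∀ t, vt t ≤ th
  unb : ∀ t, C t ∉ Jbd W.{u}
  good : ∀ t, TCF s {X | X ∩ C t ∈ Jbd W.{u}} (vt t)

/-- being bounded on a set is a Borel condition -/
theorem measurable_bdd (C : Set W.{u}) : MeasurableSet {X : Set W.{u} | X ∩ C ∈ Jbd W.{u}} := by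
  have h : {X : Set W.{u} | X ∩ C ∈ Jbd W.{u}} =
      ⋃ b : W.{u}, ⋂ x : {x : W.{u} // x ∈ C ∧ b < x}, {X : Set W.{u} | x.1 ∉ X} := by
    ext X
    simp only [Set.mem_iUnion, Set.mem_iInter]
    constructor
    · rintro ⟨b, hb⟩
      refine ⟨b, ?_⟩
      rintro ⟨x, hx, hbx⟩ hX
      exact absurd (hb x ⟨hX, hx⟩) (not_le.2 hbx)
    · rintro ⟨b, hb⟩
      refine ⟨b, ?_⟩
      rintro x ⟨hx, hC⟩
      by_contra hcon
      exact hb ⟨x, hC, not_le.1 hcon⟩ hx
  rw [h]
  refine MeasurableSet.iUnion fun b => MeasurableSet.iInter fun x => ?_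
  exact (measurableSet_setOf.2 (measurable_set_mem x.1)).compl

theorem measurable_comp {T : Type u} [Countable T] {A : T → Type u} (B : ∀ t, Set (Set (A t)))
    (hB : ∀ t, MeasurableSet (B t)) {I : Type u} (e : ∀ t, A t → I) (E : Set (Set T))
    (hE : MeasurableSet E) : MeasurableSet (CompI Set.univ E B e) := by
  have h1 : Measurable (fun X : Set I => {t | t ∈ (Set.univ : Set T) ∧ {i | e t i ∈ X} ∉ B t}) := by
    rw [measurable_set_iff]
    intro t
    have h2 : Measurable (fun X : Set I => {i | e t i ∈ X}) := by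
      rw [measurable_set_iff]
      intro i
      exact measurable_set_mem (e t i)
    have h3 : MeasurableSet {X : Set I | {i | e t i ∈ X} ∈ B t} := h2 (hB t)
    have h4 := measurableSet_setOf.1 h3.compl
    convert h4 using 1
    funext X
    simp
  exact h1 hE

end Pool.Agent.BorelPcf
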